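import Mathlib

/-!
# GZ57/Density (MP_63b904_nt): blocked values

`z` is blocked if no odd prime `r ≤ R` divides `p z ^ 2 - 4`. The density of the blocked values is at least
`∏ (1 - 2 / r)` over the odd primes `r ≤ R`, and `2 R + 1` times this product is unbounded.
-/

set_option autoImplicit false

namespace Pool.Agent.GZ57

open Finset

/-- no odd prime `r ≤ R` divides `p z ^ 2 - 4` -/
def Blocked (p R : ℕ) (z : ℕ) : Prop :=
  ∀ r : ℕ, r.Prime → r ≠ 2 → r ≤ R → ¬ (r : ℤ) ∣ (p : ℤ) * (z : ℤ) ^ 2 - 4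

/-- the odd primes up to `R` -/
def oddPrimes (R : ℕ) : Finset ℕ := (range (R + 1)).filter (fun r => r.Prime ∧ r ≠ 2)

theorem mem_oddPrimes {R r : ℕ} : r ∈ oddPrimes R ↔ r ≤ R ∧ r.Prime ∧ r ≠ 2 := by
  simp [oddPrimes]

/-- the period -/
def per (R : ℕ) : ℕ := ∏ i : {r // r ∈ oddPrimes R}, i.1

theorem per_pos (R : ℕ) : 0 < per R :=
  Finset.prod_pos fun i _ => (mem_oddPrimes.1 i.2).2.1.pos

theorem roots_le_two (p r : ℕ) [Fact r.Prime] (hr : r ≠ 2) :
    (univ.filter (fun x : ZMod r => (p : ZMod r) * x ^ 2 - 4 = 0)).card ≤ 2 := by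
  classical
  by_cases hne : (univ.filter (fun x : ZMod r => (p : ZMod r) * x ^ 2 - 4 = 0)).Nonempty
  · obtain ⟨x0, hx0⟩ := hne
    rw [mem_filter] at hx0
    have hp : (p : ZMod r) ≠ 0 := by
      intro h
      have h4 := hx0.2
      rw [h, zero_mul, zero_sub, neg_eq_zero] at h4
      have h2 : (2 : ZMod r) ≠ 0 := by
        intro h2
        have : ((2 : ℕ) : ZMod r) = 0 := by exact_mod_cast h2
        rw [ZMod.natCast_eq_zero_iff] at this
        exact hr ((Nat.prime_dvd_prime_iff_eq Fact.out Nat.prime_two).1 this)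
      have h5 : (2 : ZMod r) * 2 = 0 := by rw [← h4]; norm_num
      rcases mul_eq_zero.1 h5 with h | h <;> exact h2 h
    refine (card_le_card (t := {x0, -x0}) ?_).trans card_le_two
    intro x hx
    rw [mem_filter] at hx
    have h1 : (p : ZMod r) * (x ^ 2 - x0 ^ 2) = 0 := by linear_combination hx.2 - hx0.2
    rcases mul_eq_zero.1 h1 with h | h
    · exact absurd h hp
    · have h2 : x ^ 2 = x0 ^ 2 := by linear_combination h
      rcases sq_eq_sq_iff_eq_or_eq_neg.1 h2 with h | h <;> simp [h]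
  · rw [not_nonempty_iff_eq_empty] at hne
    rw [hne]
    simp

theorem nonroots (p r : ℕ) [Fact r.Prime] (hr : r ≠ 2) :
    (r : ℝ) - 2 ≤ (univ.filter (fun x : ZMod r => (p : ZMod r) * x ^ 2 - 4 ≠ 0)).card := by
  classical
  have h1 := roots_le_two p r hr
  have h2 := Finset.card_filter_add_card_filter_not (s := (univ : Finset (ZMod r)))
    (fun x : ZMod r => (p : ZMod r) * x ^ 2 - 4 = 0)
  rw [card_univ, ZMod.card] at h2
  have h3 : ((univ.filter (fun x : ZMod r => (p : ZMod r) * x ^ 2 - 4 = 0)).card : ℝ) ≤ 2 := by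
    exact_mod_cast h1
  have h4 : ((univ.filter (fun x : ZMod r => (p : ZMod r) * x ^ 2 - 4 = 0)).card : ℝ) +
      (univ.filter (fun x : ZMod r => ¬ (p : ZMod r) * x ^ 2 - 4 = 0)).card = r := by
    exact_mod_cast h2
  have h5 : (univ.filter (fun x : ZMod r => (p : ZMod r) * x ^ 2 - 4 ≠ 0)) =
      (univ.filter (fun x : ZMod r => ¬ (p : ZMod r) * x ^ 2 - 4 = 0)) := rfl
  rw [h5]
  linarith

/-- the weight of `j` -/
noncomputable def wt (j : ℕ) : ℝ := if j.Prime ∧ j ≠ 2 then 1 - 2 / (j : ℝ) else 1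

noncomputable def D (R : ℕ) : ℝ := ∏ j ∈ range (R + 1), wt j

theorem D_eq (R : ℕ) : D R = ∏ r ∈ oddPrimes R, (1 - 2 / (r : ℝ)) := by
  unfold D oddPrimes
  rw [prod_filter]
  rfl

open Classical in
theorem period_count (p R : ℕ) :
    D R * per R ≤ (((range (per R)).filter (Blocked p R)).card : ℝ) := by
  have hprime : ∀ i : {r // r ∈ oddPrimes R}, i.1.Prime := fun i => (mem_oddPrimes.1 i.2).2.1
  have hF : ∀ i : {r // r ∈ oddPrimes R}, Fact i.1.Prime := fun i => ⟨hprime i⟩
  have hN : NeZero (∏ i : {r // r ∈ oddPrimes R}, i.1) := ⟨(per_pos R).ne'⟩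
  have hcop : Pairwise (Function.onFun Nat.Coprime (fun i : {r // r ∈ oddPrimes R} => i.1)) := by
    intro i j hij
    exact (Nat.coprime_primes (hprime i) (hprime j)).2 fun h => hij (Subtype.ext h)
  let e := ZMod.prodEquivPi (fun i : {r // r ∈ oddPrimes R} => i.1) hcop
  let B : Finset (∀ i : {r // r ∈ oddPrimes R}, ZMod i.1) :=
    Fintype.piFinset fun i => univ.filter (fun x : ZMod i.1 => (p : ZMod i.1) * x ^ 2 - 4 ≠ 0)
  have hB : D R * per R ≤ (B.card : ℝ) := by
    rw [Fintype.card_piFinset, D_eq, per]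
    push_cast
    rw [← prod_coe_sort (oddPrimes R) (fun r => (1 - 2 / (r : ℝ))), ← prod_mul_distrib]
    apply prod_le_prod
    · intro i _
      have h3 : 3 ≤ i.1 := by
        have := (hprime i).two_le
        have := (mem_oddPrimes.1 i.2).2.2
        omega
      have h3' : (3 : ℝ) ≤ i.1 := by exact_mod_cast h3
      have : (2 : ℝ) / i.1 ≤ 1 := by rw [div_le_one (by linarith)]; linarith
      exact mul_nonneg (by linarith) (by linarith)
    · intro i _
      have h0 : (i.1 : ℝ) ≠ 0 := by exact_mod_cast (hprime i).ne_zero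
      have h1 : (1 - 2 / (i.1 : ℝ)) * i.1 = i.1 - 2 := by field_simp
      rw [h1]
      exact nonroots p i.1 (mem_oddPrimes.1 i.2).2.2
  refine hB.trans ?_
  have hle : B.card ≤ ((range (per R)).filter (Blocked p R)).card := by
    refine card_le_card_of_injOn (fun f => (e.symm f).val) ?_ ?_
    · intro f hf
      have hf' : f ∈ B := hf
      simp only [coe_filter, Set.mem_ofPred_eq, mem_range]
      refine ⟨ZMod.val_lt _, ?_⟩
      intro r hr hr2 hrR hdvd
      have hmem : r ∈ oddPrimes R := mem_oddPrimes.2 ⟨hrR, hr, hr2⟩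
      have h1 := Fintype.mem_piFinset.1 hf' ⟨r, hmem⟩
      rw [mem_filter] at h1
      apply h1.2
      have h2 : f ⟨r, hmem⟩ = (((e.symm f).val : ℕ) : ZMod r) := by
        have h3 : f = e (e.symm f) := (e.apply_symm_apply f).symm
        have h4 : e (e.symm f) ⟨r, hmem⟩ = ZMod.castHom (Finset.dvd_prod_of_mem
            (fun i : {r // r ∈ oddPrimes R} => i.1) (mem_univ ⟨r, hmem⟩)) _ (e.symm f) :=
          ZMod.prodEquivPi_apply _ hcop _ _
        conv_lhs => rw [h3]
        rw [h4]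
        conv_lhs => rw [← ZMod.natCast_zmod_val (e.symm f)]
        exact map_natCast _ _
      rw [h2]
      have h5 := (ZMod.intCast_zmod_eq_zero_iff_dvd ((p : ℤ) * (((e.symm f).val : ℕ) : ℤ) ^ 2 - 4) r)
      have h6 := h5.2 hdvd
      push_cast at h6
      exact h6
    · intro f _ g _ hfg
      exact e.symm.injective (ZMod.val_injective _ hfg)
  exact_mod_cast hle

theorem wt_le_one (j : ℕ) : wt j ≤ 1 := by
  unfold wt
  split_ifs
  · have : 0 ≤ 2 / (j : ℝ) := by positivity
    linarith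
  · exact le_rfl

theorem wt_ge (j : ℕ) (hj : 1 ≤ j) : 1 - 2 / (j : ℝ) ≤ wt j := by
  unfold wt
  split_ifs
  · exact le_rfl
  · have : 0 ≤ 2 / (j : ℝ) := by positivity
    linarith

theorem wt_nonneg (j : ℕ) : 0 ≤ wt j := by
  unfold wt
  split_ifs with h
  · have h2 : (2 : ℝ) ≤ j := by exact_mod_cast h.1.two_le
    have : (2 : ℝ) / j ≤ 1 := by rw [div_le_one (by linarith)]; linarith
    linarith
  · norm_num

theorem wt_eq_one {j a b : ℕ} (ha : a ≠ 1) (hb : b ≠ 1) (h : j = a * b) : wt j = 1 := by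
  unfold wt
  rw [if_neg]
  rintro ⟨h1, -⟩
  exact Nat.not_prime_mul ha hb (h ▸ h1)

theorem D_nonneg (R : ℕ) : 0 ≤ D R := prod_nonneg fun j _ => wt_nonneg j

theorem D_step (n : ℕ) (hn : 1 ≤ n) :
    D (6 * n + 1) * ((6 * n + 3) / (6 * n + 7)) ≤ D (6 * (n + 1) + 1) := by
  have h : D (6 * (n + 1) + 1) = D (6 * n + 1) * wt (6 * n + 2) * wt (6 * n + 3) *
      wt (6 * n + 4) * wt (6 * n + 5) * wt (6 * n + 6) * wt (6 * n + 7) := by
    unfold D
    have : 6 * (n + 1) + 1 + 1 = 6 * n + 1 + 1 + 1 + 1 + 1 + 1 + 1 + 1 := by ring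
    rw [this]
    iterate 6 rw [prod_range_succ]
  rw [h, wt_eq_one (a := 2) (b := 3 * n + 1) (by norm_num) (by omega) (by ring),
    wt_eq_one (j := 6 * n + 3) (a := 3) (b := 2 * n + 1) (by norm_num) (by omega) (by ring),
    wt_eq_one (j := 6 * n + 4) (a := 2) (b := 3 * n + 2) (by norm_num) (by omega) (by ring),
    wt_eq_one (j := 6 * n + 6) (a := 2) (b := 3 * n + 3) (by norm_num) (by omega) (by ring)]
  have h5 := wt_ge (6 * n + 5) (by omega)
  have h7 := wt_ge (6 * n + 7) (by omega)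
  push_cast at h5 h7
  have hn' : (1 : ℝ) ≤ n := by exact_mod_cast hn
  have e5 : 1 - 2 / (6 * (n : ℝ) + 5) = (6 * n + 3) / (6 * n + 5) := by
    rw [eq_div_iff (by positivity)]
    field_simp
    ring
  have e7 : 1 - 2 / (6 * (n : ℝ) + 7) = (6 * n + 5) / (6 * n + 7) := by
    rw [eq_div_iff (by positivity)]
    field_simp
    ring
  rw [e5] at h5
  rw [e7] at h7
  have h8 : ((6 * (n : ℝ) + 3) / (6 * n + 7)) ≤ wt (6 * n + 5) * wt (6 * n + 7) := by
    calc ((6 * (n : ℝ) + 3) / (6 * n + 7))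
        = (6 * n + 3) / (6 * n + 5) * ((6 * n + 5) / (6 * n + 7)) := by field_simp
      _ ≤ wt (6 * n + 5) * wt (6 * n + 7) := by
          apply mul_le_mul h5 h7 (by positivity) (wt_nonneg _)
  calc D (6 * n + 1) * ((6 * n + 3) / (6 * n + 7))
      ≤ D (6 * n + 1) * (wt (6 * n + 5) * wt (6 * n + 7)) :=
        mul_le_mul_of_nonneg_left h8 (D_nonneg _)
    _ = _ := by ring

theorem D_seven : D 7 = 1 / 7 := by
  unfold D
  simp only [prod_range_succ, prod_range_zero]
  have h0 : wt 0 = 1 := by unfold wt; rw [if_neg (by decide)]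
  have h1 : wt 1 = 1 := by unfold wt; rw [if_neg (by decide)]
  have h2 : wt 2 = 1 := by unfold wt; rw [if_neg (by decide)]
  have h3 : wt 3 = 1 / 3 := by unfold wt; rw [if_pos (by decide)]; norm_num
  have h4 : wt 4 = 1 := by unfold wt; rw [if_neg (by decide)]
  have h5 : wt 5 = 3 / 5 := by unfold wt; rw [if_pos (by decide)]; norm_num
  have h6 : wt 6 = 1 := by unfold wt; rw [if_neg (by decide)]
  have h7 : wt 7 = 5 / 7 := by unfold wt; rw [if_pos (by decide)]; norm_num
  rw [h0, h1, h2, h3, h4, h5, h6, h7]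
  norm_num

theorem D_lower (n : ℕ) (hn : 1 ≤ n) :
    1 / 7 ≤ n * D (6 * n + 1) ∧
      (1 / 21) * ∑ i ∈ range n, (1 / ((i : ℝ) + 1)) ≤ n * D (6 * n + 1) := by
  induction n, hn using Nat.le_induction with
  | base =>
    have : D (6 * 1 + 1) = 1 / 7 := D_seven
    rw [this]
    norm_num
  | succ n hn ih =>
    obtain ⟨h1, h2⟩ := ih
    have h3 := D_step n hn
    have hn' : (1 : ℝ) ≤ n := by exact_mod_cast hn
    have h4 : (n : ℝ) * D (6 * n + 1) * (1 + 1 / (3 * ((n : ℝ) + 1))) ≤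
        ((n : ℝ) + 1) * D (6 * (n + 1) + 1) := by
      have h5 : (n : ℝ) * (1 + 1 / (3 * ((n : ℝ) + 1))) ≤ (n + 1) * ((6 * n + 3) / (6 * n + 7)) := by
        have e1 : (n : ℝ) * (1 + 1 / (3 * ((n : ℝ) + 1))) = n * (3 * n + 4) / (3 * (n + 1)) := by
          field_simp
          ring
        have e2 : ((n : ℝ) + 1) * ((6 * n + 3) / (6 * n + 7)) =
            (n + 1) * (6 * n + 3) / (6 * n + 7) := by ring
        rw [e1, e2, div_le_div_iff₀ (by positivity) (by positivity)]
        nlinarith [hn', mul_nonneg (by linarith : (0:ℝ) ≤ n) (by linarith : (0:ℝ) ≤ n)]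
      calc (n : ℝ) * D (6 * n + 1) * (1 + 1 / (3 * ((n : ℝ) + 1)))
          = D (6 * n + 1) * (n * (1 + 1 / (3 * ((n : ℝ) + 1)))) := by ring
        _ ≤ D (6 * n + 1) * ((n + 1) * ((6 * n + 3) / (6 * n + 7))) :=
            mul_le_mul_of_nonneg_left h5 (D_nonneg _)
        _ = (n + 1) * (D (6 * n + 1) * ((6 * n + 3) / (6 * n + 7))) := by ring
        _ ≤ _ := mul_le_mul_of_nonneg_left h3 (by positivity)
    have h6 : (n : ℝ) * D (6 * n + 1) + (1 / 21) * (1 / ((n : ℝ) + 1)) ≤
        (n : ℝ) * D (6 * n + 1) * (1 + 1 / (3 * ((n : ℝ) + 1))) := by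
      have e3 : (n : ℝ) * D (6 * n + 1) * (1 + 1 / (3 * ((n : ℝ) + 1))) =
          (n : ℝ) * D (6 * n + 1) + (n : ℝ) * D (6 * n + 1) * (1 / (3 * ((n : ℝ) + 1))) := by ring
      have e4 : (1 / 21 : ℝ) * (1 / ((n : ℝ) + 1)) = (1 / 7) * (1 / (3 * ((n : ℝ) + 1))) := by
        field_simp
        norm_num
      rw [e3, e4]
      have : (1 / 7 : ℝ) * (1 / (3 * ((n : ℝ) + 1))) ≤
          (n : ℝ) * D (6 * n + 1) * (1 / (3 * ((n : ℝ) + 1))) :=
        mul_le_mul_of_nonneg_right h1 (by positivity)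
      linarith
    have h7 : 0 ≤ (1 / 21 : ℝ) * (1 / ((n : ℝ) + 1)) := by positivity
    have h8 : (1 / 21 : ℝ) * ∑ i ∈ range (n + 1), (1 / ((i : ℝ) + 1)) =
        (1 / 21) * ∑ i ∈ range n, (1 / ((i : ℝ) + 1)) + (1 / 21) * (1 / ((n : ℝ) + 1)) := by
      rw [sum_range_succ]
      ring
    rw [h8]
    push_cast
    constructor <;> linarith

theorem exists_R (K : ℕ) : ∃ R : ℕ, (K : ℝ) ≤ (2 * R + 1) * D R := by
  have h := Real.tendsto_sum_range_one_div_nat_succ_atTop
  obtain ⟨n, hn⟩ := (h.eventually_ge_atTop (21 * (K : ℝ) + 1)).exists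
  have hn1 : 1 ≤ n := by
    by_contra h0
    have : n = 0 := by omega
    subst this
    simp at hn
    have : (0 : ℝ) ≤ K := by positivity
    linarith
  refine ⟨6 * n + 1, ?_⟩
  have h2 := (D_lower n hn1).2
  have h3 : (K : ℝ) ≤ n * D (6 * n + 1) := by linarith
  have h4 : (n : ℝ) * D (6 * n + 1) ≤ (2 * ((6 * n + 1 : ℕ) : ℝ) + 1) * D (6 * n + 1) := by
    apply mul_le_mul_of_nonneg_right _ (D_nonneg _)
    push_cast
    have : (0 : ℝ) ≤ n := by positivity
    linarith
  linarith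

theorem blocked_periodic (p R : ℕ) : Function.Periodic (Blocked p R) (per R) := by
  intro z
  apply propext
  have key : ∀ r, r ∈ oddPrimes R →
      ((r : ℤ) ∣ (p : ℤ) * ((z + per R : ℕ) : ℤ) ^ 2 - 4 ↔ (r : ℤ) ∣ (p : ℤ) * (z : ℤ) ^ 2 - 4) := by
    intro r hr
    have h1 : r ∣ per R := by
      have := Finset.dvd_prod_of_mem (fun i : {r // r ∈ oddPrimes R} => i.1)
        (mem_univ (⟨r, hr⟩ : {r // r ∈ oddPrimes R}))
      exact this
    have h2 : (r : ℤ) ∣ (per R : ℤ) := by exact_mod_cast h1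
    have h3 : (p : ℤ) * ((z + per R : ℕ) : ℤ) ^ 2 - 4 =
        (p : ℤ) * (z : ℤ) ^ 2 - 4 + per R * (p * (2 * z + per R)) := by
      push_cast
      ring
    rw [h3]
    exact (dvd_add_left (h2.mul_right _))
  constructor
  · intro h r h1 h2 h3 h4
    exact h r h1 h2 h3 ((key r (mem_oddPrimes.2 ⟨h3, h1, h2⟩)).2 h4)
  · intro h r h1 h2 h3 h4
    exact h r h1 h2 h3 ((key r (mem_oddPrimes.2 ⟨h3, h1, h2⟩)).1 h4)

open Classical in
/-- For every `K` there are `R` and `c` such that every interval of length `W` contains at least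
`(K W - c) / (2 R + 1)` blocked values. -/
theorem density (p K : ℕ) : ∃ R c : ℕ, ∀ W s : ℕ,
    K * W ≤ (2 * R + 1) * ((Ico s (s + W)).filter (Blocked p R)).card + c := by
  obtain ⟨R, hR⟩ := exists_R K
  have hper := per_pos R
  have hb : ∀ s : ℕ, K * per R ≤
      (2 * R + 1) * ((Ico s (s + per R)).filter (Blocked p R)).card := by
    intro s
    rw [Nat.filter_Ico_card_eq_of_periodic s (per R) (Blocked p R) (blocked_periodic p R),
      Nat.count_eq_card_filter_range]
    have h1 := period_count p R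
    have h2 : (K : ℝ) * per R ≤ (2 * R + 1) * ((range (per R)).filter (Blocked p R)).card := by
      calc (K : ℝ) * per R ≤ ((2 * R + 1) * D R) * per R :=
            mul_le_mul_of_nonneg_right hR (by positivity)
        _ = (2 * R + 1) * (D R * per R) := by ring
        _ ≤ _ := mul_le_mul_of_nonneg_left h1 (by positivity)
    exact_mod_cast h2
  refine ⟨R, K * per R, fun W => ?_⟩
  induction W using Nat.strong_induction_on with
  | _ W ih =>
    intro s
    rcases Nat.lt_or_ge W (per R) with h | h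
    · have : K * W ≤ K * per R := Nat.mul_le_mul_left K h.le
      omega
    · obtain ⟨V, rfl⟩ : ∃ V, W = per R + V := ⟨W - per R, by omega⟩
      have h1 := ih V (by omega) (s + per R)
      have h2 := hb s
      have h3 : ((Ico s (s + (per R + V))).filter (Blocked p R)).card =
          ((Ico s (s + per R)).filter (Blocked p R)).card +
            ((Ico (s + per R) (s + per R + V)).filter (Blocked p R)).card := by
        rw [← card_union_of_disjoint, ← filter_union, Ico_union_Ico_eq_Ico (by omega) (by omega),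
          Nat.add_assoc]
        exact disjoint_filter_filter (Ico_disjoint_Ico_consecutive _ _ _)
      rw [h3, Nat.mul_add, Nat.mul_add]
      omega

end Pool.Agent.GZ57
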