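import Pool.Agent.GZ57.Density
import Pool.Agent.GZ72.Half

/-!
# GZ57/Sieve (MP_63b904_nt): the density lemma in the form used for the threshold `1 / 2`
-/

set_option autoImplicit false

namespace Pool.Agent.GZ57

open Finset

theorem exists_G (K : ℝ) : ∃ G : ℕ, K ≤ G * D G := by
  have h := Real.tendsto_sum_range_one_div_nat_succ_atTop
  obtain ⟨n, hn⟩ := (h.eventually_ge_atTop (21 * |K| + 1)).exists
  have hK := abs_nonneg K
  have hK' := le_abs_self K
  have hn1 : 1 ≤ n := by
    by_contra h0
    have : n = 0 := by omega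
    subst this
    simp at hn
    linarith
  refine ⟨6 * n + 1, ?_⟩
  have h2 := (D_lower n hn1).2
  have h3 : K ≤ n * D (6 * n + 1) := by linarith
  have h4 : (n : ℝ) * D (6 * n + 1) ≤ ((6 * n + 1 : ℕ) : ℝ) * D (6 * n + 1) := by
    apply mul_le_mul_of_nonneg_right _ (D_nonneg _)
    push_cast
    have : (0 : ℝ) ≤ n := by positivity
    linarith
  linarith

theorem blocked_iff (p G y : ℕ) : GZ72.Blocked p G y ↔ Blocked p G y := by
  constructor
  · intro h r h1 h2 h3 h4
    have := h1.two_le
    exact h r h1 (by omega) h3 h4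
  · intro h r h1 h2 h3 h4
    exact h r h1 (by omega) h3 h4

open Classical in
theorem cnt_eq (p G A B : ℕ) : GZ72.cnt p G A B = ((Ico A B).filter (Blocked p G)).card := by
  unfold GZ72.cnt
  congr 1
  ext y
  simp only [mem_filter, mem_Ico, blocked_iff]

open Classical in
theorem cnt_period (p G A : ℕ) : D G * per G ≤ GZ72.cnt p G A (A + per G) := by
  rw [cnt_eq, Nat.filter_Ico_card_eq_of_periodic A (per G) (Blocked p G) (blocked_periodic p G),
    Nat.count_eq_card_filter_range]
  exact period_count p G

theorem cnt_add (p G A B V : ℕ) :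
    GZ72.cnt p G A (A + (B + V)) = GZ72.cnt p G A (A + B) + GZ72.cnt p G (A + B) (A + B + V) := by
  classical
  rw [cnt_eq, cnt_eq, cnt_eq, ← card_union_of_disjoint, ← filter_union,
    Ico_union_Ico_eq_Ico (by omega) (by omega), Nat.add_assoc]
  exact disjoint_filter_filter (Ico_disjoint_Ico_consecutive _ _ _)

/-- For every `K ≥ 0` there is `G` such that `G` times the density of the blocked levels is at least `K`. -/
theorem sieve (p : ℕ) (K : ℝ) (hK : 0 ≤ K) : ∃ G Q : ℕ, ∀ A W : ℕ,
    K * ((W : ℝ) - Q) ≤ G * GZ72.cnt p G A (A + W) := by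
  obtain ⟨G, hG⟩ := exists_G K
  refine ⟨G, per G, fun A W => ?_⟩
  have hper := per_pos G
  induction W using Nat.strong_induction_on generalizing A with
  | _ W ih =>
    rcases Nat.lt_or_ge W (per G) with h | h
    · have h1 : (W : ℝ) ≤ per G := by exact_mod_cast h.le
      have h2 : K * ((W : ℝ) - per G) ≤ 0 := mul_nonpos_of_nonneg_of_nonpos hK (by linarith)
      have h3 : (0 : ℝ) ≤ G * GZ72.cnt p G A (A + W) := by positivity
      linarith
    · obtain ⟨V, rfl⟩ : ∃ V, W = per G + V := ⟨W - per G, by omega⟩
      have h1 := ih V (by omega) (A + per G)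
      have h2 := cnt_period p G A
      rw [cnt_add]
      push_cast
      have h3 : K * per G ≤ G * GZ72.cnt p G A (A + per G) := by
        calc K * per G ≤ (G * D G) * per G := mul_le_mul_of_nonneg_right hG (by positivity)
          _ = G * (D G * per G) := by ring
          _ ≤ _ := mul_le_mul_of_nonneg_left h2 (by positivity)
      have h4 : K * ((per G : ℝ) + V - per G) = K * (V - per G) + K * per G := by ring
      rw [h4, mul_add]
      linarith

end Pool.Agent.GZ57
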